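import Pool.Agent.Y107.GC.Defs
import Pool.Agent.Y107.MC.Defect
import Pool.Agent.W484.CH.Corr

/-!
# Degrees of correspondences (copies of lemmas of `Pool/Agent/W484/CH`, to keep the imports small)
-/

set_option autoImplicit false
set_option linter.unusedSectionVars false

open CategoryTheory AlgebraicGeometry

universe u v w

namespace Pool.Agent.Y107.GC

open Pool.Agent.H914 Pool.Agent.H914.VarClass Pool.Agent.H914.VarClass.Obj Pool.Agent.W492.BB
  Pool.Agent.W550.Corr Pool.Agent.W484.CH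

variable {k : Type u} [Field k] {𝒱 : VarClass k} {C : TheoryData.{u, v, 0} 𝒱 ℚ}
  [hC : IsChow C] {A Z X Y : 𝒱.Obj}

theorem extBy_mem {i : ℤ} {b : C.A A} (hb : C.Deg i b) :
    C.Deg (Z.dim + i) (extBy C Z b) := by
  have h1 := C.push_mem (Obj.lift (snd A Z) (𝟙 (A.prod Z))) (C.pull_mem (fst A Z) hb)
  have h2 : i + 1 * (((Z.prod (A.prod Z)).dim : ℤ) - (A.prod Z).dim) = Z.dim + i := by
    rw [Obj.dim_prod, Obj.dim_prod]
    push_cast
    ring
  rw [h2] at h1
  exact h1

theorem pairBy_mem {i : ℤ} {a : C.A A} (ha : C.Deg (A.dim - i) a) :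
    C.Deg ((A.prod Z).dim + -i) (pairBy C Z a) := by
  have h1 := C.push_mem (Obj.lift (𝟙 (A.prod Z)) (snd A Z)) (C.pull_mem (fst A Z) ha)
  have h2 : (A.dim : ℤ) - i + 1 * ((((A.prod Z).prod Z).dim : ℤ) - (A.prod Z).dim) =
      (A.prod Z).dim + -i := by
    rw [Obj.dim_prod, Obj.dim_prod]
    push_cast
    ring
  rw [h2] at h1
  exact h1

end Pool.Agent.Y107.GC
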