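import Pool.Agent.Y107.SJ.Defs

/-!
# Geometric coniveau and arithmetic or Hodge theoretic coniveau: definitions
-/

set_option autoImplicit false

open CategoryTheory AlgebraicGeometry

universe u v w

namespace Pool.Agent.Y107.GC

open Pool.Agent.H914 Pool.Agent.H914.VarClass Pool.Agent.H914.VarClass.Obj Pool.Agent.W492.BB
  Pool.Agent.TH133 Pool.Agent.Y107.SJ

variable {k : Type u} [Field k] {𝒱 : VarClass k}

/-- Data of a cohomology theory: the graded vector spaces `H^*(X)` over `K` and the homomorphisms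
`Γ_* : H^*(X) → H^*(Y)` given by the correspondences `Γ ∈ CH^*(X × Y)`. -/
structure CohData (C : TheoryData.{u, v, 0} 𝒱 ℚ) (K : Type w) [Field K] where
  /-- the space `H^*(X)` -/
  H : 𝒱.Obj → Type v
  [group : ∀ X, AddCommGroup (H X)]
  [module : ∀ X, Module K (H X)]
  /-- the space `H^i(X)` -/
  gr : ∀ X : 𝒱.Obj, ℤ → Submodule K (H X)
  /-- the action of correspondences -/
  act : ∀ {X Y : 𝒱.Obj}, C.A (X.prod Y) → H X →ₗ[K] H Y

attribute [instance] CohData.group CohData.module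

variable {C : TheoryData.{u, v, 0} 𝒱 ℚ} {K : Type w} [Field K] (T : CohData C K)

/-- The class `Γ_* a` on `Y`, for a correspondence `Γ` from `X` to `Y` and a class `a` on `X`. -/
def image {X Y : 𝒱.Obj} (Γ : C.A (X.prod Y)) (a : T.H X) : T.H Y := T.act Γ a

/-- The class `a` on `X` lies in `H^i(X)`. -/
def InDegree (i : ℤ) {X : 𝒱.Obj} (a : T.H X) : Prop := a ∈ T.gr X i

/-- The class `q a + b`. -/
def comb (q : ℚ) {X : 𝒱.Obj} (a b : T.H X) : T.H X := (q : K) • a + b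

variable (C) in
/-- The correspondence `q Γ + Γ'`. -/
def combC (q : ℚ) {X : 𝒱.Obj} (Γ Γ' : C.A X) : C.A X := q • Γ + Γ'

/-- The formal properties of the action of correspondences on a Weil cohomology theory. -/
structure IsCoh : Prop where
  lin : ∀ (X Y : 𝒱.Obj) (q : ℚ) (Γ Γ' : C.A (X.prod Y)) (a : T.H X),
    image T (combC C q Γ Γ') a = comb T q (image T Γ a) (image T Γ' a)
  comp : ∀ (X Y Z : 𝒱.Obj) (Γ : C.A (X.prod Y)) (Δ : C.A (Y.prod Z)) (a : T.H X),
    image T (comp C Γ Δ) a = image T Δ (image T Γ a)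
  ident : ∀ (X : 𝒱.Obj) (a : T.H X), image T (graph C (𝟙 X)) a = a
  deg : ∀ (X Y : 𝒱.Obj) (e i : ℤ) (Γ : C.A (X.prod Y)) (a : T.H X),
    C.Deg ((X.dim : ℤ) + e) Γ → InDegree T i a → InDegree T (i + 2 * e) (image T Γ a)
  ext_zero : ∀ (X Y : 𝒱.Obj) (p i : ℤ) (x : C.A X) (y : C.A Y) (a : T.H X),
    C.Deg p x → InDegree T i a → i + 2 * p ≠ 2 * X.dim → image T (ext C x y) a = 0

/-- The geometric coniveau filtration `N^ν H^i(X)`: the sum of the images of the homomorphisms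
`H^(i-2m)(Z) → H^i(X)` given by correspondences `β ∈ CH^(dim Z + m)(Z × X)`, for all varieties `Z` and
all `m ≥ ν`, `m ≥ 0`. -/
def geomConiveau (X : 𝒱.Obj) (i ν : ℤ) : Submodule K (T.H X) :=
  Submodule.span K {b | ∃ (Z : 𝒱.Obj) (m : ℕ) (β : C.A (Z.prod X)) (a : T.H Z), ν ≤ m ∧
    C.Deg ((Z.dim : ℤ) + m) β ∧ InDegree T (i - 2 * m) a ∧ b = image T β a}

variable {T} in
/-- The class `a` on `X` lies in `E^ν H^i(X)`. -/
def Mem (E : ∀ X : 𝒱.Obj, ℤ → ℤ → Submodule K (T.H X)) (i ν : ℤ) {X : 𝒱.Obj} (a : T.H X) : Prop :=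
  a ∈ E X i ν

variable {T} in
/-- The formal properties of the Galois coniveau `N_ℓ^ν H^i` (over number fields or finite fields) and
of the Hodge coniveau `N_H^ν H^i` (over the complex numbers), with `E X i ν = H^i(X)` for `ν ≤ 0`:
they are decreasing in `ν`, zero if `i < 2 ν`, and a correspondence of degree `e` maps
`E^ν H^i(X)` to `E^(ν+e) H^(i+2e)(Y)`. -/
structure IsConiveauSystem (E : ∀ X : 𝒱.Obj, ℤ → ℤ → Submodule K (T.H X)) : Prop where
  deg : ∀ (X : 𝒱.Obj) (i ν : ℤ) (a : T.H X), Mem E i ν a → InDegree T i a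
  nonpos : ∀ (X : 𝒱.Obj) (i ν : ℤ) (a : T.H X), ν ≤ 0 → InDegree T i a → Mem E i ν a
  decreasing : ∀ (X : 𝒱.Obj) (i ν ν' : ℤ) (a : T.H X), ν ≤ ν' → Mem E i ν' a → Mem E i ν a
  eq_zero : ∀ (X : 𝒱.Obj) (i ν : ℤ) (a : T.H X), i < 2 * ν → Mem E i ν a → a = 0
  image : ∀ (X Y : 𝒱.Obj) (e i ν : ℤ) (Γ : C.A (X.prod Y)) (a : T.H X),
    C.Deg ((X.dim : ℤ) + e) Γ → Mem E i ν a → Mem E (i + 2 * e) (ν + e) (image T Γ a)

variable {T}

/-- The generalized conjecture for `X` and the levels `ν ≤ c` in all degrees. -/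
def Holds (E : ∀ X : 𝒱.Obj, ℤ → ℤ → Submodule K (T.H X)) (c : ℕ) (X : 𝒱.Obj) : Prop :=
  ∀ i ν : ℤ, ν ≤ c → geomConiveau T X i ν = E X i ν

/-- The generalized conjecture for `X` in all levels and degrees. -/
def HoldsAll (E : ∀ X : 𝒱.Obj, ℤ → ℤ → Submodule K (T.H X)) (X : 𝒱.Obj) : Prop :=
  ∀ i ν : ℤ, geomConiveau T X i ν = E X i ν

/-- For all `Y`, the generalized conjecture in the levels `ν ≤ c` holds for `V × Y` if and only if it
holds for `Y`, and it holds for `V` itself, in all levels if `dim V ≤ 2 c + 1`. -/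
def Transparent (E : ∀ X : 𝒱.Obj, ℤ → ℤ → Submodule K (T.H X)) (c : ℕ) (V : 𝒱.Obj) : Prop :=
  Holds E c V ∧ (V.dim ≤ 2 * c + 1 → HoldsAll E V) ∧ ∀ Y : 𝒱.Obj, Holds E c (V.prod Y) ↔ Holds E c Y

variable (T) in
/-- The primitive part of `V` has cohomology in the middle degree only (Lefschetz). -/
def IsLefschetz (V : Pol C) : Prop :=
  ∀ (m : ℤ) (a : T.H V.X), m ≠ V.X.dim → InDegree T m a → image T (prim V) a = 0

/-- If the primitive cohomology of `V` is concentrated in the middle degree then `V` is transparent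
for the levels `ν ≤ c`. -/
def TransparentPol (E : ∀ X : 𝒱.Obj, ℤ → ℤ → Submodule K (T.H X)) (c : ℕ) (V : Pol C) : Prop :=
  IsLefschetz T V → Transparent E c V.X

/-- `α 0 + ... + α r`. -/
def total (α : ℕ → ℕ) (r : ℕ) : ℕ := ∑ s ∈ Finset.range (r + 1), α s

end Pool.Agent.Y107.GC
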