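import Pool.Agent.Y107.GC.Cls

/-!
# Varieties of large Chow coniveau and the generalized Tate and Hodge conjectures
-/

set_option autoImplicit false
set_option linter.unusedSectionVars false

open CategoryTheory AlgebraicGeometry

universe u v w

namespace Pool.Agent.Y107.GC

open Pool.Agent.H914 Pool.Agent.H914.VarClass Pool.Agent.H914.VarClass.Obj Pool.Agent.W492.BB
  Pool.Agent.W550.Corr Pool.Agent.TH133 Pool.Agent.W484.CH Pool.Agent.Y107.MC

variable {k : Type u} [Field k] {𝒱 : VarClass k} {C : TheoryData.{u, v, 0} 𝒱 ℚ}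
  [hC : IsChowProj C] {X Y X' Y' Z W : 𝒱.Obj}

section chow

include hC

lemma graph_comp' (f : X ⟶ Y) (Γ : C.A (Y.prod Z)) :
    C.comp (C.graph f) Γ = C.pull (prodMap f (𝟙 Z)) Γ := by
  have e0 : prodMap (𝟙 X) (𝟙 Z) = 𝟙 (X.prod Z) := by
    apply prod_ext <;> simp
  rw [TheoryData.graph, comp_span, e0, C.push_id, map_one, mul_one]

lemma comp_cograph' (f : Z ⟶ Y) (Γ : C.A (X.prod Y)) :
    C.comp Γ (C.cograph f) = C.pull (prodMap (𝟙 X) f) Γ := by
  have h1 : tp C (C.comp Γ (C.cograph f)) = C.pull (prodMap f (𝟙 X)) (tp C Γ) := by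
    rw [tp_comp C (ch_comm C), SK.tp_cograph, graph_comp']
  have h2 := congrArg (tp C) h1
  rw [tp_tp] at h2
  have e1 : (sw X Z ≫ prodMap f (𝟙 X)) ≫ sw Y X = prodMap (𝟙 X) f := by
    apply prod_ext <;> simp [sw, prodMap, comp_lift]
  rw [h2, tp, tp, ← C.pull_comp, ← C.pull_comp, e1]

lemma cograph_eq (f : X ⟶ Y) : C.cograph f = C.pull (prodMap (𝟙 Y) f) (dg C Y) := by
  rw [← comp_cograph', dg_comp C]

lemma extBy_eq (w : C.A X) : extBy C Y w =
    C.pull (snd Y (X.prod Y)) (C.pull (fst X Y) w) * C.cograph (snd X Y) := by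
  have e1 : Obj.lift (snd X Y) (𝟙 (X.prod Y)) ≫ snd Y (X.prod Y) = 𝟙 _ := lift_snd _ _
  rw [extBy, TheoryData.cograph, ← C.proj_left, ← C.pull_comp, e1, C.pull_id, mul_one]

/-- The factorization of `(v × w) ⊗ Δ_Y` through `Y`. -/
lemma tens_ext_dg (v : C.A X) (w : C.A X') :
    tens C (C.ext v w) (dg C Y) = C.comp (pairBy C Y v) (extBy C Y w) := by
  have e0 : prodMap (𝟙 (X.prod Y)) (𝟙 (X'.prod Y)) = 𝟙 _ := by
    apply prod_ext <;> simp
  have e1 : prodMap (snd X Y) (𝟙 (X'.prod Y)) ≫ snd Y (X'.prod Y) = snd (X.prod Y) (X'.prod Y) := by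
    simp [prodMap]
  have e2 : prodMap (snd X Y) (𝟙 (X'.prod Y)) ≫ prodMap (𝟙 Y) (snd X' Y) =
      prodMap (snd X Y) (snd X' Y) := by
    apply prod_ext <;> simp [prodMap, comp_lift]
  have e3 : prodMap (fst X Y) (fst X' Y) ≫ fst X X' = fst (X.prod Y) (X'.prod Y) ≫ fst X Y := by
    simp [prodMap]
  have e4 : prodMap (fst X Y) (fst X' Y) ≫ snd X X' = snd (X.prod Y) (X'.prod Y) ≫ fst X' Y := by
    simp [prodMap]
  rw [pairBy, comp_span, e0, C.push_id, extBy_eq, cograph_eq, map_mul, ← C.pull_comp,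
    ← C.pull_comp, ← C.pull_comp, ← C.pull_comp, e1, e2, tens, TheoryData.ext, map_mul,
    ← C.pull_comp, ← C.pull_comp, e3, e4, C.pull_comp, C.pull_comp, ← C.pull_comp (snd _ _)]
  rw [mul_assoc]
  exact ch_comm C _ _

end chow

section coh

variable {K : Type w} [Field K] [CharZero K] {T : CohData.{u, v, w} C K} (hT : IsCoh T)
  {E : ∀ X : 𝒱.Obj, ℤ → ℤ → Submodule K (T.H X)}

include hT

omit [CharZero K] hC in
lemma IsCoh.comp' (Γ : C.A (X.prod Y)) (Δ : C.A (Y.prod Z)) (a : T.H X) :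
    T.act (C.comp Γ Δ) a = T.act Δ (T.act Γ a) := hT.comp X Y Z Γ Δ a

omit [CharZero K] hC in
lemma IsCoh.dg (a : T.H X) : T.act (dg C X) a = a := hT.ident X a

omit [CharZero K] hC in
lemma IsCoh.lin' (q : ℚ) (Γ Γ' : C.A (X.prod Y)) (a : T.H X) :
    T.act (q • Γ + Γ') a = (q : K) • T.act Γ a + T.act Γ' a := hT.lin X Y q Γ Γ' a

omit [CharZero K] hC in
lemma IsCoh.zero (a : T.H X) : T.act (0 : C.A (X.prod Y)) a = 0 := by
  have h := hT.lin' (1 : ℚ) (0 : C.A (X.prod Y)) 0 a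
  rw [smul_zero, add_zero, Rat.cast_one, one_smul] at h
  exact left_eq_add.1 h

omit [CharZero K] hC in
lemma IsCoh.act_add (Γ Γ' : C.A (X.prod Y)) (a : T.H X) :
    T.act (Γ + Γ') a = T.act Γ a + T.act Γ' a := by
  have h := hT.lin' (1 : ℚ) Γ Γ' a
  rwa [one_smul, Rat.cast_one, one_smul] at h

omit [CharZero K] hC in
lemma IsCoh.act_smul (q : ℚ) (Γ : C.A (X.prod Y)) (a : T.H X) :
    T.act (q • Γ) a = (q : K) • T.act Γ a := by
  have h := hT.lin' q Γ 0 a
  rwa [add_zero, hT.zero, add_zero] at h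

omit [CharZero K] hC in
lemma IsCoh.sum {ι : Type*} (s : Finset ι) (t : ι → C.A (X.prod Y)) (a : T.H X) :
    T.act (∑ i ∈ s, t i) a = ∑ i ∈ s, T.act (t i) a := by
  classical
  induction s using Finset.induction_on with
  | empty => simp [hT.zero]
  | insert i s hi ih => rw [Finset.sum_insert hi, Finset.sum_insert hi, hT.act_add, ih]

omit [CharZero K] hC hT in
lemma IsConiveauSystem.le_gr (hE : IsConiveauSystem E) (X : 𝒱.Obj) (i ν : ℤ) :
    E X i ν ≤ T.gr X i := fun a ha => hE.deg X i ν a ha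

omit [CharZero K] hC hT in
lemma IsConiveauSystem.all (hE : IsConiveauSystem E) (X : 𝒱.Obj) (i ν : ℤ) (hν : ν ≤ 0) :
    E X i ν = T.gr X i :=
  le_antisymm (hE.le_gr X i ν) fun a ha => hE.nonpos X i ν a hν ha

omit [CharZero K] hC hT in
lemma IsConiveauSystem.anti (hE : IsConiveauSystem E) (X : 𝒱.Obj) (i ν ν' : ℤ) (h : ν ≤ ν') :
    E X i ν' ≤ E X i ν := fun a ha => hE.decreasing X i ν ν' a h ha

omit [CharZero K] hC hT in
lemma IsConiveauSystem.vanish (hE : IsConiveauSystem E) (X : 𝒱.Obj) (i ν : ℤ) (h : i < 2 * ν) :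
    E X i ν = ⊥ := (Submodule.eq_bot_iff _).2 fun a ha => hE.eq_zero X i ν a h ha

omit [CharZero K] hC hT in
lemma IsConiveauSystem.act' (hE : IsConiveauSystem E) (X Y : 𝒱.Obj) (e i ν : ℤ)
    (Γ : C.A (X.prod Y)) (hΓ : C.Deg ((X.dim : ℤ) + e) Γ) (a : T.H X) (ha : a ∈ E X i ν) :
    T.act Γ a ∈ E Y (i + 2 * e) (ν + e) := hE.image X Y e i ν Γ a hΓ ha

omit [CharZero K] hC hT in
lemma geom_le (hE : IsConiveauSystem E) (X : 𝒱.Obj) (i ν : ℤ) :
    geomConiveau T X i ν ≤ E X i ν := by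
  refine Submodule.span_le.2 ?_
  rintro _ ⟨Z, m, β, a, hm, hβ, ha, rfl⟩
  have h1 : a ∈ E Z (i - 2 * m) 0 := by
    rw [hE.all _ _ _ le_rfl]
    exact ha
  have h2 := hE.act' Z X m (i - 2 * m) 0 β hβ a h1
  rw [show i - 2 * (m : ℤ) + 2 * m = i by ring, zero_add] at h2
  exact hE.anti X i ν m hm h2

/-- Correspondences of degree `e ≥ 0` and the geometric coniveau. -/
lemma geom_act {e : ℕ} {Γ : C.A (X.prod Y)} (hΓ : C.Deg ((X.dim : ℤ) + e) Γ) {i ν j μ : ℤ}
    (hj : j = i + 2 * e) (hμ : μ = ν + e) {a : T.H X} (ha : a ∈ geomConiveau T X i ν) :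
    T.act Γ a ∈ geomConiveau T Y j μ := by
  unfold geomConiveau at ha
  induction ha using Submodule.span_induction with
  | zero =>
    rw [map_zero]
    exact Submodule.zero_mem _
  | add s t _ _ hs ht =>
    rw [map_add]
    exact Submodule.add_mem _ hs ht
  | smul r t _ ht =>
    rw [map_smul]
    exact Submodule.smul_mem _ _ ht
  | mem t ht =>
    obtain ⟨Z, m, β, b, hm, hβ, hb, rfl⟩ := ht
    have h0 : T.act Γ (image T β b) = T.act (C.comp β Γ) b := (hT.comp' β Γ b).symm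
    rw [h0]
    refine Submodule.subset_span ⟨Z, m + e, C.comp β Γ, b, by push_cast; omega, ?_, ?_, rfl⟩
    · exact SK.comp_memZ hβ hΓ (by push_cast; ring)
    · rwa [show j - 2 * ((m + e : ℕ) : ℤ) = i - 2 * m by push_cast; rw [hj]; ring]

omit [CharZero K] hC hT in
lemma all_geom {Γ : C.A (X.prod Y)} {e : ℕ} (hΓ : C.Deg ((X.dim : ℤ) + e) Γ) {i ν j : ℤ}
    (hj : j = i + 2 * e) (hν : ν ≤ e) {a : T.H X} (ha : a ∈ T.gr X i) :
    T.act Γ a ∈ geomConiveau T Y j ν := by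
  refine Submodule.subset_span ⟨X, e, Γ, a, hν, hΓ, ?_, rfl⟩
  change a ∈ T.gr X (j - 2 * (e : ℤ))
  rwa [show j - 2 * (e : ℤ) = i by rw [hj]; ring]

omit [CharZero K] hC in
lemma IsCoh.mem' {d i j : ℤ} {Γ : C.A (X.prod Y)} (hΓ : C.Deg d Γ) {a : T.H X}
    (ha : a ∈ T.gr X i) (hj : j = i + 2 * (d - X.dim)) : T.act Γ a ∈ T.gr Y j := by
  have h1 := hT.deg X Y (d - X.dim) i Γ a (by rwa [add_sub_cancel]) ha
  rwa [← hj] at h1

/-- The part of Chow coniveau `c` has geometric coniveau `c`. -/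
lemma twisted_geom {c : ℕ} {t : C.A (X.prod X')} (ht : ChowConiveau C c t) {i ν : ℤ}
    (hν : ν ≤ c) {x : T.H (X.prod Y)} (hx : x ∈ T.gr (X.prod Y) i) :
    T.act (tens C t (dg C Y)) x ∈ geomConiveau T (X'.prod Y) i ν := by
  unfold ChowConiveau FactorsThrough at ht
  induction ht using Submodule.span_induction with
  | zero =>
    rw [tens_zero_left, hT.zero]
    exact Submodule.zero_mem _
  | add s t _ _ hs ht =>
    rw [SK.tens_add_left, hT.act_add]
    exact Submodule.add_mem _ hs ht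
  | smul r t _ ht =>
    rw [SK.tens_smul_left, hT.act_smul]
    exact Submodule.smul_mem _ _ ht
  | mem t ht =>
    obtain ⟨Z, m, α, β, hm, hα, hβ, rfl⟩ := ht
    have h1 : tens C (C.comp α β) (dg C Y) =
        C.comp (tens C α (dg C Y)) (tens C β (dg C Y)) := by
      rw [SK.tens_comp4, dg_comp C]
    rw [h1, hT.comp']
    have h2 := tens_mem C hα (dg_mem C Y)
    have h3 := tens_mem C hβ (dg_mem C Y)
    refine all_geom (e := m) (i := i - 2 * m) ?_ (by ring) (by omega) ?_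
    · rwa [show (Z.dim : ℤ) + m + Y.dim = ((Z.prod Y).dim : ℤ) + m by
        rw [dim_prod]; push_cast; ring] at h3
    · exact hT.mem' h2 hx (by rw [dim_prod]; push_cast; ring)

lemma twisted_geom' {c : ℕ} {t : C.A (X.prod X')} (ht : ChowConiveau C c t) {i ν : ℤ}
    (hν : ν ≤ c) {x : T.H X} (hx : x ∈ T.gr X i) :
    T.act t x ∈ geomConiveau T X' i ν := by
  unfold ChowConiveau FactorsThrough at ht
  induction ht using Submodule.span_induction with
  | zero =>
    rw [hT.zero]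
    exact Submodule.zero_mem _
  | add s t _ _ hs ht =>
    rw [hT.act_add]
    exact Submodule.add_mem _ hs ht
  | smul r t _ ht =>
    rw [hT.act_smul]
    exact Submodule.smul_mem _ _ ht
  | mem t ht =>
    obtain ⟨Z, m, α, β, hm, hα, hβ, rfl⟩ := ht
    rw [hT.comp']
    exact all_geom (e := m) (i := i - 2 * m) hβ (by ring) (by omega)
      (hT.mem' hα hx (by ring))

omit [CharZero K] hT in
lemma dg_prod (X Y : 𝒱.Obj) : dg C (X.prod Y) = tens C (dg C X) (dg C Y) := by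
  have h1 := SK.tens_graph (C := C) (𝟙 X) (𝟙 Y)
  have e1 : prodMap (𝟙 X) (𝟙 Y) = 𝟙 (X.prod Y) := by
    apply prod_ext <;> simp
  rw [e1] at h1
  exact h1.symm

omit [CharZero K] hT in
lemma tens_line (P : SK.Pol C) (j : ℕ) : tens C (line P j) (dg C Y) =
    P.D⁻¹ • C.comp (pairBy C Y (P.h ^ (P.X.dim - j))) (extBy C Y (P.h ^ j)) := by
  rw [line, SK.tens_smul_left, tens_ext_dg]

/-- The decomposition of the cohomology of `V × Y`. -/
lemma decomp (P : SK.Pol C) (x : T.H (P.X.prod Y)) :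
    x = T.act (tens C (SK.prim P) (dg C Y)) x +
      ∑ j ∈ Finset.range (P.X.dim + 1), ((P.D⁻¹ : ℚ) : K) •
        T.act (extBy C Y (P.h ^ j)) (T.act (pairBy C Y (P.h ^ (P.X.dim - j))) x) := by
  have h1 : dg C (P.X.prod Y) = tens C (SK.prim P) (dg C Y) +
      ∑ j ∈ Finset.range (P.X.dim + 1), P.D⁻¹ •
        C.comp (pairBy C Y (P.h ^ (P.X.dim - j))) (extBy C Y (P.h ^ j)) := by
    rw [dg_prod, SK.dg_eq P, SK.tens_add_left, triv_eq_sum, SK.tens_sum_left]
    congr 1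
    exact Finset.sum_congr rfl fun j _ => tens_line P j
  conv_lhs => rw [← hT.dg x, h1, hT.act_add, hT.sum]
  congr 1
  refine Finset.sum_congr rfl fun j _ => ?_
  rw [hT.act_smul, hT.comp']

theorem holds_prod (P : SK.Pol C) {c : ℕ} (hc : ChowConiveau C c (SK.prim P))
    (hE : IsConiveauSystem E) (hY : Holds E c Y) : Holds E c (P.X.prod Y) := by
  intro i ν hν
  refine le_antisymm (geom_le hE _ _ _) fun x hx => ?_
  rw [decomp hT P x]
  refine Submodule.add_mem _ (twisted_geom hT hc hν (hE.le_gr _ _ _ hx))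
    (Submodule.sum_mem _ fun j hj => Submodule.smul_mem _ _ ?_)
  rw [Finset.mem_range] at hj
  have h1 : C.Deg ((P.X.dim : ℤ) - (j : ℤ)) (P.h ^ (P.X.dim - j)) := by
    have := P.pow_mem (P.X.dim - j)
    rwa [show ((P.X.dim - j : ℕ) : ℤ) = (P.X.dim : ℤ) - j by omega] at this
  have h2 := hE.act' _ _ _ i ν _ (pairBy_mem (Z := Y) h1) x hx
  have h3 : geomConiveau T Y (i + 2 * -(j : ℤ)) (ν + -(j : ℤ)) =
      E Y (i + 2 * -(j : ℤ)) (ν + -(j : ℤ)) := hY _ _ (by omega)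
  rw [← h3] at h2
  exact geom_act hT (e := j) (extBy_mem (Z := Y) (P.pow_mem j)) (by ring) (by ring) h2

theorem holds_of_prod (P : SK.Pol C) {c : ℕ} (hE : IsConiveauSystem E)
    (hY : Holds E c (P.X.prod Y)) : Holds E c Y := by
  intro i ν hν
  refine le_antisymm (geom_le hE _ _ _) fun x hx => ?_
  have h1 : C.comp (extBy C Y (1 : C.A P.X)) (pairBy C Y (P.h ^ P.X.dim)) = P.D • dg C Y := by
    refine comp_extBy_pairBy C _ _ (ch_comm C _ _) P.D ?_
    rw [one_mul]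
    exact (P.degree Y).1
  have h2 : C.Deg ((Y.dim : ℤ) + 0) (extBy C Y (1 : C.A P.X)) := extBy_mem (C.one_mem P.X)
  have h3 : C.Deg (((P.X.prod Y).dim : ℤ) + ((0 : ℕ) : ℤ)) (pairBy C Y (P.h ^ P.X.dim)) := by
    have h4 : C.Deg ((P.X.dim : ℤ) - 0) (P.h ^ P.X.dim) := by
      rw [sub_zero]
      exact P.pow_mem P.X.dim
    have := pairBy_mem (Z := Y) h4
    rwa [neg_zero] at this
  have h4 := hE.act' _ _ _ i ν _ h2 x hx
  rw [mul_zero, add_zero, add_zero, ← hY i ν hν] at h4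
  have h5 := geom_act hT (e := 0) h3 (j := i) (μ := ν) (by simp) (by simp) h4
  rw [← hT.comp', h1, hT.act_smul, hT.dg] at h5
  have h6 : (P.D : K) ≠ 0 := by exact_mod_cast P.D_ne
  have h7 := Submodule.smul_mem _ ((P.D : K)⁻¹) h5
  rwa [smul_smul, inv_mul_cancel₀ h6, one_smul] at h7

omit [CharZero K] in
lemma act_line (P : SK.Pol C) {j : ℕ} (hj : j ≤ P.X.dim) {m : ℤ} {a : T.H P.X}
    (ha : a ∈ T.gr P.X m) (hm : m ≠ 2 * j) : T.act (line P j) a = 0 := by
  have h2 : line P j = C.ext (P.D⁻¹ • P.h ^ (P.X.dim - j)) (P.h ^ j) := by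
    rw [line, TheoryData.ext, TheoryData.ext, map_smul, smul_mul_assoc]
  rw [h2]
  refine hT.ext_zero P.X P.X ((P.X.dim - j : ℕ) : ℤ) m _ _ a
    (Submodule.smul_mem _ _ (P.pow_mem (P.X.dim - j))) ha ?_
  push_cast [Nat.cast_sub hj]
  omega

theorem holds_self (P : SK.Pol C) {c : ℕ} (hc : ChowConiveau C c (SK.prim P))
    (hL : ∀ m : ℤ, m ≠ P.X.dim → ∀ a ∈ T.gr P.X m, T.act (SK.prim P) a = 0)
    (hE : IsConiveauSystem E) {i ν : ℤ}
    (hν : ν ≤ c ∨ P.X.dim ≤ 2 * c + 1) : geomConiveau T P.X i ν = E P.X i ν := by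
  refine le_antisymm (geom_le hE _ _ _) fun x hx => ?_
  by_cases hi : i < 2 * ν
  · rw [hE.vanish _ _ _ hi, Submodule.mem_bot] at hx
    rw [hx]
    exact Submodule.zero_mem _
  have hg := hE.le_gr _ _ _ hx
  have h1 : x = T.act (SK.prim P) x +
      ∑ j ∈ Finset.range (P.X.dim + 1), T.act (line P j) x := by
    conv_lhs => rw [← hT.dg x, SK.dg_eq P, hT.act_add, triv_eq_sum, hT.sum]
  rw [h1]
  refine Submodule.add_mem _ ?_ (Submodule.sum_mem _ fun j hj => ?_)
  · by_cases h2 : i = P.X.dim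
    · exact twisted_geom' hT hc (by omega) hg
    · rw [hL i h2 x hg]
      exact Submodule.zero_mem _
  · rw [Finset.mem_range] at hj
    by_cases h2 : i = 2 * j
    · exact twisted_geom' hT (line_coniveau P (by omega : j ≤ P.X.dim)) (by omega) hg
    · rw [act_line hT P (by omega) hg h2]
      exact Submodule.zero_mem _

theorem transparent {V : SJ.Pol C} {c : ℕ} (hc : SJ.HasConiveau V c)
    (hE : IsConiveauSystem E) : TransparentPol E c V := by
  intro hL
  have h1 : ChowConiveau C c (SK.prim (SJ.old V)) := prim_coniveau (SJ.con_old.1 hc)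
  exact ⟨fun i ν hν => holds_self hT (SJ.old V) h1 (fun m hm a ha => hL m a hm ha) hE (Or.inl hν),
    fun hd i ν => holds_self hT (SJ.old V) h1 (fun m hm a ha => hL m a hm ha) hE (Or.inr hd),
    fun Y => ⟨holds_of_prod hT (SJ.old V) hE, holds_prod hT (SJ.old V) h1 hE⟩⟩

end coh

end Pool.Agent.Y107.GC
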